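import Pool.Agent.Helper62.HX.Stm
import Pool.Agent.Helper62.JX.Stm

/-!
# Cyclic covers, unramified at infinity: statements

As `GX/Stm.lean`, one eigen-summand: the forms `u dx / ∏ a_l ^ (ρ_l / m)`, `deg u < n + 1`, `∑ deg a_l = n + 2`, and now
`∑ ρ_l nd_l = m (c + 1)`: the local system is unramified at infinity. The residue at infinity is a horizontal
functional; its kernel `V` has rank `n`. Let `T(z)`, `z = 1 / x`, be the expansion of `x ^ (c + 1) ∏ a_l ^ (- ρ_l / m)` at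
infinity. The residue of `x ^ l` is `0` for `l < c` and `T_(l - c)` for `l ≥ c` (so `1` for `l = c`). The coordinates
on `V` are the coefficients of `u` but the one with the index `c`, the basis is `x ^ l - res(x ^ l) x ^ c`, `l ≠ c`. The
regular forms are `x ^ l`, `l < c`. The data are those of `CX/Stm.lean` (`Cdat A n`).
-/

set_option autoImplicit false

open Polynomial Matrix Finset Filter NumberField IsDedekindDomain

namespace Pool.Agent.Helper62.IX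

open Pool.Agent.Helper62.BM Pool.Agent.Helper62.BW Pool.Agent.Helper62.BX Pool.Agent.Helper62.CX
open Pool.Agent.Helper62.GX Pool.Agent.Helper62.HX Pool.Agent.Helper62.JX

section defs

variable {ι : Type} [Fintype ι] [DecidableEq ι] {R : Type} [CommRing R]

/-- `T` is the expansion of `x ^ (c + 1) ∏ a_l ^ (- ρ_l / m)` in `z = 1 / x` modulo `z ^ (N + 1)`. -/
def RootT (m N : ℕ) (ρ nd : ι → ℕ) (a : ι → R[X]) (T : R[X]) : Prop :=
  T.coeff 0 = 1 ∧ X ^ (N + 1) ∣ T ^ m * ∏ l, reflect (nd l) (a l) ^ ρ l - 1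

/-- The residue of `x ^ l` at infinity. -/
noncomputable def res (c : ℕ) (T : R[X]) (l : ℕ) : R := if l < c then 0 else T.coeff (l - c)

/-- The residue functional is horizontal (over `A[X]`). -/
def HorT {A : Type} [CommRing A] {n : ℕ} (c : Fin (n + 1)) (T : A[X][X]) (W : A[X])
    (M : Matrix (Fin (n + 1)) (Fin (n + 1)) A[X]) : Prop :=
  ∀ l : Fin (n + 1), W * derivative (res c T l) = ∑ j : Fin (n + 1), res c T j * M j l

/-- The matrix of the connection on the kernel of the residue. -/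
noncomputable def MI {n : ℕ} (c : Fin (n + 1)) (T : R[X]) (M : Matrix (Fin (n + 1)) (Fin (n + 1)) R) :
    Matrix (Fin n) (Fin n) R :=
  Matrix.of fun i j => M (c.succAbove i) (c.succAbove j) -
    res c T (c.succAbove j) * M (c.succAbove i) c

/-- The Hasse-Witt functionals on the basis of the kernel of the residue. -/
noncomputable def YI {n : ℕ} (c : Fin (n + 1)) (T : R[X]) (p : ℕ) (q : ι → ℕ) (d : ℕ)
    (a : ι → R[X]) : Matrix (Fin d) (Fin n) R :=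
  Matrix.of fun i j => YG p q d (n + 1) a i (c.succAbove j) -
    res c T (c.succAbove j) * YG p q d (n + 1) a i c

/-- The data of the family. -/
def FamI {A : Type} [CommRing A] (m : ℕ) (ρ nd : ι → ℕ) {n : ℕ} (c : Fin (n + 1))
    (a : ι → A[X][X]) (T : A[X][X]) (D : Cdat A n) (P S : Fin (n + 1) → A[X][X]) : Prop :=
  GenG nd a ∧ n + 2 = ∑ l, nd l ∧ m * ((c : ℕ) + 1) = ∑ l, ρ l * nd l ∧
    RootT m (n + 1) ρ nd a T ∧ RelG m ρ (n + 1) a D.W P S ∧ HorT c T D.W (Mc P S) ∧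
    D.M = MI c T (Mc P S)

end defs

/-- I1. The residue is horizontal. Proof: with `ã_l = reflect (nd l) (a l)`, `Ã = ∏ ã_l`, `P̃ = reflect n P`,
`S̃ = reflect (n + 1) S`, `Λ_t = LamG ρ ã (∂_t ã)`, `Λ_z = LamG ρ ã (∂_z ã)` the relation becomes (reflect in the degree
`2 n + 2`; `reflect (n + 1) (LamG ρ a (∂_x a)) = m (c + 1) Ã - z Λ_z`, `reflect (n + 2) (LamG ρ a (∂_t a)) = Λ_t`)
`W z ^ (n - l) Λ_t = z (m P̃ Ã + S̃ (m (c + 1) Ã - z Λ_z)) / z`, that is `W z ^ (n - l) Λ_t = m P̃ Ã + S̃ (m (c + 1) Ã - z Λ_z)` (`Λ_t` is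
divisible by `z`, the left side comes from `z ^ (n + 1 - l) (Λ_t / z)`). From `RootT`: `m ∂_t T Ã ≡ - T Λ_t`, `m z ∂_z T Ã ≡ - z T Λ_z`
modulo `z ^ (n + 2)`. Multiply by `T` and cancel `m Ã`: `- W z ^ (n - l) ∂_t T ≡ P̃ T + S̃ ((c + 1) T + z ∂_z T)`. Take the
coefficient of `z ^ (n - c)`: `z ∂_z (S̃ T)` has there `n - c` times the one of `S̃ T`, so
`[S̃ ((c + 1) T + z ∂_z T)] = [((n + 1) S̃ - z ∂_z S̃) T]`, and `(n + 1) S̃ - z ∂_z S̃ = reflect n (∂_x S)`. The coefficient of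
`z ^ (n - c)` in `reflect n u * T` is `∑ res_j u_j`. The left side gives `- W ∂_t T_(l - c)`. -/
def I_Stab : Prop :=
  ∀ (ι : Type) [Fintype ι] [DecidableEq ι] (A : Type) [CommRing A] [IsDomain A] [CharZero A]
    (m n : ℕ) (ρ nd : ι → ℕ) (c : Fin (n + 1)), (∀ l, 0 < ρ l ∧ ρ l < m) → n + 2 = ∑ l, nd l →
    m * ((c : ℕ) + 1) = ∑ l, ρ l * nd l → ∀ (a : ι → A[X][X]), GenG nd a → ∀ (T : A[X][X]),
    RootT m (n + 1) ρ nd a T → ∀ (W : A[X]) (P S : Fin (n + 1) → A[X][X]),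
    RelG m ρ (n + 1) a W P S → HorT c T W (Mc P S)

/-- I2. The data (from `I_Stab`, `G_Loc`, `G_Rk`, as helper38's `GX/Data.lean`): `M(t₀) = κ r eᵀ / μ` on `Fin (n + 1)`; in the
coordinates of `V`: `e_j = x₀ ^ l - res(x ^ l)(t₀) x₀ ^ c`, `l = c.succAbove j`, and the same `r`, without the index `c`.
`∑ e_j r_j = r(x₀) = 0` because `∑ res_j(t₀) r_j = 0` (`HorT` at `t₀`). `e ≠ 0`: if `c ≥ 1` then `l = 0` gives `e = 1`;
`c = 0` is impossible: `m = ∑ ρ_l nd_l ≥ ρ_(i₁) + ρ_(i₂) = m`, so `∑ nd_l = 2`. `r ≠ 0`: else `r` is a multiple of `x ^ c`, and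
`res(x ^ c) = 1`. -/
def I_Data : Prop :=
  ∀ (ι : Type) [Fintype ι] [DecidableEq ι] (A : Type) [CommRing A] [IsDomain A] [CharZero A]
    (m n : ℕ) (ρ nd : ι → ℕ) (c : Fin (n + 1)) (i₁ i₂ : ι), (∀ l, 0 < ρ l ∧ ρ l < m) →
    ρ i₁ + ρ i₂ = m → 2 ≤ n → n + 2 = ∑ l, nd l → m * ((c : ℕ) + 1) = ∑ l, ρ l * nd l →
    ∀ (a : ι → A[X][X]), GenG nd a → ∀ (T : A[X][X]), RootT m (n + 1) ρ nd a T →
    ∀ (t₀ x₀ : A) (a₁ : ι → A[X]), NodeG i₁ i₂ a t₀ x₀ a₁ →
    ∃ (D : Cdat A n) (P S : Fin (n + 1) → A[X][X]), FamI m ρ nd c a T D P S ∧ D.Ok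

/-- I3. From `G_HWb` and `HorT`: `YI = YG B`, `B` = the matrix of the basis of `V`, and `M B + W B' = B MI`. -/
def I_HWb : Prop :=
  ∀ (ι : Type) [Fintype ι] [DecidableEq ι] (R : Type) [CommRing R] (p : ℕ) [Fact p.Prime]
    [CharP R p] (m d n : ℕ) (ρ : ι → ℕ) (c : Fin (n + 1)), m ∣ p - 1 → (∀ l, 0 < ρ l ∧ ρ l < m) →
    ∀ (a : ι → R[X][X]) (T : R[X][X]), T.coeff 0 = 1 → ∀ (W : R[X])
    (P S : Fin (n + 1) → R[X][X]), RelG m ρ (n + 1) a W P S → HorT c T W (Mc P S) →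
    ∀ (i : Fin d) (l : Fin n),
    W * derivative (YI c T p (fun j => ρ j * ((p - 1) / m)) d a i l) =
      ∑ j, YI c T p (fun j => ρ j * ((p - 1) / m)) d a i j * MI c T (Mc P S) j l

/-- I3'. From `G_HWdeg`. -/
def I_HWdeg : Prop :=
  ∀ (ι : Type) [Fintype ι] [DecidableEq ι] (R : Type) [CommRing R] (p d n U : ℕ) (q : ι → ℕ)
    (c : Fin (n + 1)) (a : ι → R[X][X]) (T : R[X][X]), 1 ≤ p →
    (∀ l i, ((a l).coeff i).natDegree ≤ U) → (∀ i, (T.coeff i).natDegree ≤ U) →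
    (∀ l, q l ≤ p) → ∀ (i : Fin d) (l : Fin n),
    (YI c T p q d a i l).natDegree ≤ U * (Fintype.card ι + 1) * p

/-- I4. The functionals are independent. Proof. (i) helper93's `g_HWrank` (`GX/HR.lean`) without `¬ m ∣ ∑ ρ_l nd_l`
(`(p - 1) (c + 1) - p (i + 1) ≤ - n - 2` is impossible for `i ≤ c ≤ n`): the `c + 1` rows of `YG p q (c + 1) (n + 1) a` are
independent. (ii) The row with the index `c` is `res`: modulo `z ^ p` one has `∏ ã_l ^ q_l ≡ T` (`T ^ p ≡ 1`), and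
`deg ∏ a_l ^ q_l = (c + 1) (p - 1)`. (iii) If `v ᵥ* YI = 0` then `v ᵥ* YG = κ res` on all `x ^ l`. -/
def I_HWrank : Prop :=
  ∀ (ι : Type) [Fintype ι] [DecidableEq ι] (F : Type) [Field F] (p : ℕ) [Fact p.Prime]
    [CharP F p] (m n : ℕ) (ρ nd : ι → ℕ) (c : Fin (n + 1)), m ∣ p - 1 →
    (∀ l, 0 < ρ l ∧ ρ l < m) → m * ((c : ℕ) + 1) = ∑ l, ρ l * nd l → n + 2 = ∑ l, nd l →
    n + 2 < p → ∀ (a : ι → F[X]), (∀ l, (a l).Monic ∧ (a l).natDegree = nd l) →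
    (∏ l, a l).Separable → ∀ (T : F[X]), RootT m (n + 1) ρ nd a T → ∀ v : Fin (c : ℕ) → F,
    v ᵥ* YI c T p (fun j => ρ j * ((p - 1) / m)) c a = 0 → v = 0

/-- I5. As `G_FewG` (helper12's `GX/FewG.lean`), from `S_Step`, `C_NV`, `S_Frac`, `I_HWb`, `I_HWdeg`, `I_HWrank`. For `l < c` the
column `l` of `YI` is the column `l` of `YG`. -/
def I_FewG : Prop :=
  ∀ (ι : Type) [Fintype ι] [DecidableEq ι] (m n : ℕ) (ρ nd : ι → ℕ) (c : Fin (n + 1)),
    (∀ l, 0 < ρ l ∧ ρ l < m) → 2 ≤ n → (c : ℕ) < n →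
    ∀ (A : Type) [CommRing A] [IsDomain A] [CharZero A] [Countable A]
    (a : ι → A[X][X]) (T : A[X][X]) (D : Cdat A n) (P S : Fin (n + 1) → A[X][X]),
    FamI m ρ nd c a T D P S → D.Ok → (D.map (algebraMap A (FractionRing A))).Strong →
    ∀ G : MvPolynomial (Fin (c : ℕ) × Fin (c : ℕ)) A[X], G ≠ 0 →
    ∀ ε : ℝ, 0 < ε → ∃ (p₀ : ℕ) (a₀ : A), a₀ ≠ 0 ∧
      ∀ (p : ℕ) [Fact p.Prime] (k : Type) [Field k] [CharP k p] (φ : A →+* k), p₀ ≤ p →
      m ∣ p - 1 → φ a₀ ≠ 0 → ∀ T : Finset k, (∀ t ∈ T, t ^ p = t ∧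
        MvPolynomial.eval₂ ((evalRingHom t).comp (mapRingHom φ))
          (fun s : Fin (c : ℕ) × Fin (c : ℕ) =>
          (YG p (fun j => ρ j * ((p - 1) / m)) c c
            (fun j => (a j).map (mapRingHom φ)) s.1 s.2).eval t) G = 0) →
        (T.card : ℝ) ≤ ε * p

section field

/-- The forms `u dx / ∏ a_l ^ (ρ_l / m)`, `deg u < N`, without residue at infinity. -/
noncomputable def VI {E : Type} [Field E] (N c : ℕ) (T : E[X]) : Submodule E E[X] :=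
  degreeLT E N ⊓ LinearMap.ker (∑ l ∈ range N, res c T l • lcoeff E l)

variable (k : Type) [Field k] {ι : Type} [Fintype ι] [DecidableEq ι]

/-- As `IrrG`, on the kernel of the residue at infinity. -/
def IrrI (m : ℕ) (ρ nd : ι → ℕ) (n c : ℕ) (a : ι → k[X][X]) : Prop :=
  ∀ (E : Type) [Field E] [Algebra (KX k) E] [Algebra.IsAlgebraic (KX k) E] (δ : Der E),
    (∀ q : k[X], δ (algebraMap (KX k) E (Helper62.BM.ι k q)) =
      algebraMap (KX k) E (Helper62.BM.ι k (derivative q))) →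
    ∀ T : E[X], RootT m (n + 1) ρ nd
      (fun l => (a l).map ((algebraMap (KX k) E).comp (Helper62.BM.ι k))) T →
    ∀ W : Submodule E E[X], W ≤ VI (n + 1) c T →
    (∀ u ∈ W, ∀ P S : E[X], P.natDegree < n + 1 → S.natDegree ≤ n + 1 →
      (m : E[X]) * P * ((∏ l, a l).map ((algebraMap (KX k) E).comp (Helper62.BM.ι k))) +
        S * (LamG ρ a (fun l => derivative (a l))).map
          ((algebraMap (KX k) E).comp (Helper62.BM.ι k)) =
        u * (LamG ρ a (fun l => dt (a l))).map ((algebraMap (KX k) E).comp (Helper62.BM.ι k)) →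
      dE δ u - P - derivative S ∈ W) → W = ⊥ ∨ W = VI (n + 1) c T

/-- As `NoBilG`, on the kernel of the residue at infinity. -/
def NoBilI (m : ℕ) (ρ nd : ι → ℕ) (n c : ℕ) (a : ι → k[X][X]) : Prop :=
  ∀ (E : Type) [Field E] [Algebra (KX k) E] [Algebra.IsAlgebraic (KX k) E] (δ : Der E),
    (∀ q : k[X], δ (algebraMap (KX k) E (Helper62.BM.ι k q)) =
      algebraMap (KX k) E (Helper62.BM.ι k (derivative q))) →
    ∀ T : E[X], RootT m (n + 1) ρ nd
      (fun l => (a l).map ((algebraMap (KX k) E).comp (Helper62.BM.ι k))) T →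
    ∀ (β : E[X] →ₗ[E] E[X] →ₗ[E] E) (lam : E), (∀ u, β u u = 0) →
    (∀ u ∈ VI (n + 1) c T, ∀ v ∈ VI (n + 1) c T, ∀ P S P' S' : E[X],
      P.natDegree < n + 1 → S.natDegree ≤ n + 1 → P'.natDegree < n + 1 →
      S'.natDegree ≤ n + 1 →
      (m : E[X]) * P * ((∏ l, a l).map ((algebraMap (KX k) E).comp (Helper62.BM.ι k))) +
        S * (LamG ρ a (fun l => derivative (a l))).map
          ((algebraMap (KX k) E).comp (Helper62.BM.ι k)) =
        u * (LamG ρ a (fun l => dt (a l))).map ((algebraMap (KX k) E).comp (Helper62.BM.ι k)) →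
      (m : E[X]) * P' * ((∏ l, a l).map ((algebraMap (KX k) E).comp (Helper62.BM.ι k))) +
        S' * (LamG ρ a (fun l => derivative (a l))).map
          ((algebraMap (KX k) E).comp (Helper62.BM.ι k)) =
        v * (LamG ρ a (fun l => dt (a l))).map ((algebraMap (KX k) E).comp (Helper62.BM.ι k)) →
      δ (β u v) = β (dE δ u - P - derivative S) v + β u (dE δ v - P' - derivative S') +
        lam * β u v) → ∀ u ∈ VI (n + 1) c T, ∀ v ∈ VI (n + 1) c T, β u v = 0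

end field

/-- I6. As `G_Irr` (helper90's `GX/Irr.lean`). -/
def I_Irr : Prop :=
  ∀ (ι : Type) [Fintype ι] [DecidableEq ι] (k : Type) [Field k] [CharZero k] (m n : ℕ)
    (ρ nd : ι → ℕ) (c : Fin (n + 1)), (∀ l, 0 < ρ l ∧ ρ l < m) → 1 ≤ n →
    ∀ (a : ι → k[X][X]) (T : k[X][X]) (D : Cdat k n) (P S : Fin (n + 1) → k[X][X]),
    FamI m ρ nd c a T D P S → D.Ok →
    (IrrI k m ρ nd n c a → Irr k D.B) ∧ (Irr k D.B → NoBilI k m ρ nd n c a → NoBil k D.B)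

/-- I7. If all `2 ρ_l = m` (`n = 2 g`, `c = g`): the kernel of the residue is `{q G + r}`. The residue of `x ^ j G` is the
coefficient of `z ^ (j + 1)` in `G̃ T`, `G̃ ^ 2 ≡ F̃`, `T ^ 2 F̃ ≡ 1` modulo `z ^ (g + 2)`, so `G̃ T ≡ 1`; dimensions. The relation
of `IrrI` with `(P, S)` is `r` times the one of `IrrE` with `(a, b) = (2 P, S)`, `F = ∏ a`, `LamG ρ a a' = r F'`. -/
def I_Half : Prop :=
  ∀ (ι : Type) [Fintype ι] [DecidableEq ι] (k : Type) [Field k] [CharZero k] (m g : ℕ)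
    (ρ nd : ι → ℕ), 2 ≤ m → (∀ l, 2 * ρ l = m) → 1 ≤ g → 2 * g + 2 = ∑ l, nd l →
    ∀ (a : ι → k[X][X]), GenG nd a → ∀ (G H : k[X][X]), G.Monic → G.natDegree = g + 1 →
    H.natDegree ≤ g → ∏ l, a l = G ^ 2 + H → IrrI k m ρ nd (2 * g) g a → IrrE k g G H

/-- I8. As `G_FewA` (helper4's `GX/FewA.lean`), from `C_Strong`, `C_Tr`, `I_Irr`, `I_FewG`, `I_Half`, `H_Irr`, `W_Strong`, `W_Tr`,
`H_FewG`. -/
def I_FewA : Prop :=
  ∀ (ι : Type) [Fintype ι] [DecidableEq ι] (m n : ℕ) (ρ nd : ι → ℕ) (c : Fin (n + 1)),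
    (∀ l, 0 < ρ l ∧ ρ l < m) → 2 ≤ n → (c : ℕ) < n → n + 2 = ∑ l, nd l →
    m * ((c : ℕ) + 1) = ∑ l, ρ l * nd l →
    ∀ (A : Type) [CommRing A] [IsDomain A] [CharZero A] [Countable A] (L : Type) [Field L]
    [CharZero L] (θ : A →+* L), Function.Injective θ → ∀ (a : ι → A[X][X]),
    (∃ (T : A[X][X]) (D : Cdat A n) (P S : Fin (n + 1) → A[X][X]),
      FamI m ρ nd c a T D P S ∧ D.Ok) →
    (∀ g, (∀ l, 2 * ρ l = m) → n = 2 * g → ∃ (G H : A[X][X]) (D : Dat A g)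
      (P S : Fin (2 * g) → A[X][X]), ∏ l, a l = G ^ 2 + H ∧ FamE g G H D P S ∧ D.Ok) →
    IrrI L m ρ nd n c (fun l => (a l).map (mapRingHom θ)) →
    ((∀ l, 2 * ρ l = m) ∨ n = 2 ∨ Odd n ∨
      NoBilI L m ρ nd n c (fun l => (a l).map (mapRingHom θ))) →
    ∀ G : MvPolynomial (Fin (c : ℕ) × Fin (c : ℕ)) A[X], G ≠ 0 →
    ∀ ε : ℝ, 0 < ε → ∃ (p₀ : ℕ) (a₀ : A), a₀ ≠ 0 ∧
      ∀ (p : ℕ) [Fact p.Prime] (k : Type) [Field k] [CharP k p] (φ : A →+* k), p₀ ≤ p →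
      m ∣ p - 1 → φ a₀ ≠ 0 → ∀ T : Finset k, (∀ t ∈ T, t ^ p = t ∧
        MvPolynomial.eval₂ ((evalRingHom t).comp (mapRingHom φ))
          (fun s : Fin (c : ℕ) × Fin (c : ℕ) =>
          (YG p (fun j => ρ j * ((p - 1) / m)) c c
            (fun j => (a j).map (mapRingHom φ)) s.1 s.2).eval t) G = 0) →
        (T.card : ℝ) ≤ ε * p

/-- I9. The expansion exists (by induction on `N`: division by `m`). -/
def I_Root : Prop :=
  ∀ (ι : Type) [Fintype ι] (R : Type) [CommRing R] [Nontrivial R] (m N : ℕ) (ρ nd : ι → ℕ) (h : R),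
    (m : R) * h = 1 → ∀ (a : ι → R[X]), (∀ l, (a l).Monic ∧ (a l).natDegree = nd l) →
    ∃ T : R[X], RootT m N ρ nd a T

/-- The number of the regular forms in the summand with the index `r`. -/
def dI {ι : Type} [Fintype ι] (m : ℕ) (e nd : ι → ℕ) (r : ℕ) : ℕ :=
  (∑ l, rho m r e l * nd l - 1) / m

/-- The eigen-summand with the index `r` has big monodromy, case `m ∤ r ∑ e_l nd_l`. -/
def BigR (k : Type) [Field k] {ι : Type} [Fintype ι] [DecidableEq ι] (m r : ℕ) (e nd : ι → ℕ)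
    (a : ι → k[X][X]) : Prop :=
  ∃ N : ℕ, 2 ≤ N ∧ N + 1 = ∑ l : Vis m r e, nd l ∧
    (∃ (i j : Vis m r e) (t₀ x₀ : k) (a₁ : Vis m r e → k[X]), m ∣ r * (e i + e j) ∧
      NodeG i j (fun l : Vis m r e => a l) t₀ x₀ a₁) ∧
    IrrG k m (fun l : Vis m r e => rho m r e l) N (fun l : Vis m r e => a l) ∧
    (2 * r = m ∨ N = 2 ∨ Odd N ∨
      NoBilG k m (fun l : Vis m r e => rho m r e l) N (fun l : Vis m r e => a l))

/-- The eigen-summand with the index `r` has big monodromy, case `m ∣ r ∑ e_l nd_l`. -/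
def BigV (k : Type) [Field k] {ι : Type} [Fintype ι] [DecidableEq ι] (m r : ℕ) (e nd : ι → ℕ)
    (a : ι → k[X][X]) : Prop :=
  ∃ n c : ℕ, 2 ≤ n ∧ n + 2 = ∑ l : Vis m r e, nd l ∧
    m * (c + 1) = ∑ l : Vis m r e, rho m r e l * nd l ∧
    (∃ (i j : Vis m r e) (t₀ x₀ : k) (a₁ : Vis m r e → k[X]), m ∣ r * (e i + e j) ∧
      NodeG i j (fun l : Vis m r e => a l) t₀ x₀ a₁) ∧
    IrrI k m (fun l : Vis m r e => rho m r e l) (fun l : Vis m r e => nd l) n c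
      (fun l : Vis m r e => a l) ∧
    (2 * r = m ∨ n = 2 ∨ Odd n ∨
      NoBilI k m (fun l : Vis m r e => rho m r e l) (fun l : Vis m r e => nd l) n c
        (fun l : Vis m r e => a l))

section place

variable {K : Type} [Field K] [NumberField K] {ι : Type} [Fintype ι] [DecidableEq ι]

/-- As `GoodN`, with matrices of the size `d r`. -/
def GoodD (m : ℕ) (d : ℕ → ℕ) (e : ι → ℕ) (a : ι → (𝓞 K)[X][X])
    (G : ∀ r, MvPolynomial (Fin (d r) × Fin (d r)) (𝓞 K)[X])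
    (s : 𝓞 K) (v : HeightOneSpectrum (𝓞 K)) : Prop :=
  (m : 𝓞 K) ∉ v.asIdeal ∧ (rd v (∏ l, memC (a l) s)).Separable ∧
    ∀ r, 0 < r → r < m →
      (YG (Ideal.absNorm v.asIdeal) (fun j => rho m r e j * ((Ideal.absNorm v.asIdeal - 1) / m))
        (d r) (d r) (fun l => rd v (memC (a l) s))).det ≠ 0 ∧
      MvPolynomial.eval₂ ((algebraMap (𝓞 K) v.asIdeal.ResidueField).comp (evalRingHom s))
        (fun u => YG (Ideal.absNorm v.asIdeal)
          (fun j => rho m r e j * ((Ideal.absNorm v.asIdeal - 1) / m))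
          (d r) (d r) (fun l => rd v (memC (a l) s)) u.1 u.2)
        (G r) ≠ 0

variable {q : ℕ}

/-- The same with parameters. -/
def GoodDp (m : ℕ) (d : ℕ → ℕ) (e : ι → ℕ) (a : ι → (Rp K q)[X][X]) (φ : (Rp K q)[X])
    (G : ∀ r, MvPolynomial (Fin (d r) × Fin (d r)) (Rp K q)[X])
    (v : HeightOneSpectrum (𝓞 K)) (s : Fin q → ℕ) (t : ℕ) : Prop :=
  GoodD m d e (fun l => (a l).map (mapRingHom (evs s)))
    (fun r => MvPolynomial.map (mapRingHom (evs s)) (G r)) ((φ.map (evs s)).eval (t : 𝓞 K)) v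

end place

/-- I10. As `G_FewR`, `J_FewR`, from `G_Data`, `G_Half`, `G_FewA`, `I_Data`, `H_Data`, `I_FewA`, `I_Root`, `X_Spread`. The ring `A` is
generated over `Rp K q` by `1 / m` (so `T` exists by `I_Root`, and `G`, `H` with `∏ a_l = G ^ 2 + H` if `2 ∣ m`,
`Helper62.HX.sqrt_exists`), and `t₀`, `x₀`, the coefficients of `a₁` for all `r < m`. `dI m e nd r = dG m (rho m r e) nd` in the first
case, `= c` in the second one. `c < n`: `m (c + 1) = ∑ ρ_l nd_l ≤ m + n (m - 1)` (the node). -/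
def I_FewR : Prop :=
  ∀ (K : Type) [Field K] [NumberField K] (ι : Type) [Fintype ι] [DecidableEq ι] (q m : ℕ)
    (e nd : ι → ℕ), 2 ≤ m → ∀ (a : ι → (Rp K q)[X][X]) (φ : (Rp K q)[X]), GenG nd a →
    (∀ r, 0 < r → r < m →
      (¬ m ∣ r * ∑ l, e l * nd l → BigR (Cl K q) m r e nd
        (fun l => (a l).map (mapRingHom (algebraMap (Rp K q) (Cl K q))))) ∧
      (m ∣ r * ∑ l, e l * nd l → BigV (Cl K q) m r e nd
        (fun l => (a l).map (mapRingHom (algebraMap (Rp K q) (Cl K q)))))) → 1 ≤ φ.natDegree →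
    ∀ G : ∀ r, MvPolynomial (Fin (dI m e nd r) × Fin (dI m e nd r)) (Rp K q)[X],
    (∀ r, G r ≠ 0) → FewR (fun v => m ∣ Ideal.absNorm v.asIdeal - 1)
      (GoodDp m (dI m e nd) e a φ G)

/-- I11. The periodicity, as `G_Per`. -/
def I_Per : Prop :=
  ∀ (K : Type) [Field K] [NumberField K] (ι : Type) [Fintype ι] [DecidableEq ι] (q m : ℕ)
    (d : ℕ → ℕ) (e : ι → ℕ) (a : ι → (Rp K q)[X][X]) (φ : (Rp K q)[X])
    (G : ∀ r, MvPolynomial (Fin (d r) × Fin (d r)) (Rp K q)[X]), Per (GoodDp m d e a φ G)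

end Pool.Agent.Helper62.IX
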