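import Pool.Agent.Helper62.IX.Stm
import Pool.Agent.Helper62.GX.Per

/-!
# The expansion at infinity exists; the periodicity
-/

set_option autoImplicit false

open Polynomial Finset NumberField IsDedekindDomain

namespace Pool.Agent.Helper62.IX

open Pool.Agent.Helper62.BM Pool.Agent.Helper62.BW Pool.Agent.Helper62.BX Pool.Agent.Helper62.CX
open Pool.Agent.Helper62.GX

theorem root_step {R : Type} [CommRing R] (m N : ℕ) (h : R) (hh : (m : R) * h = 1) (B T : R[X])
    (hB : B.coeff 0 = 1) (hT : T.coeff 0 = 1) (hd : X ^ (N + 1) ∣ T ^ m * B - 1) :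
    ∃ T' : R[X], T'.coeff 0 = 1 ∧ X ^ (N + 1 + 1) ∣ T' ^ m * B - 1 := by
  obtain ⟨E, hE⟩ := hd
  obtain ⟨y, hy⟩ : ∃ y : R[X], y = -(Polynomial.C (h * E.coeff 0) * X ^ (N + 1)) := ⟨_, rfl⟩
  refine ⟨T + y, ?_, ?_⟩
  · rw [coeff_add, hT, hy, coeff_neg, coeff_C_mul, coeff_X_pow, if_neg (by omega), mul_zero,
      neg_zero, add_zero]
  · obtain ⟨k, hk⟩ := Polynomial.powAddExpansion T y m
    rw [hk]
    have h1 : (T ^ m + (m : R[X]) * T ^ (m - 1) * y + k * y ^ 2) * B - 1 =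
        X ^ (N + 1) * (E - (m : R[X]) * Polynomial.C (h * E.coeff 0) * T ^ (m - 1) * B) +
          X ^ (N + 1 + 1) * (X ^ N * (k * (Polynomial.C (h * E.coeff 0)) ^ 2 * B)) := by
      have h2 : (T ^ m + (m : R[X]) * T ^ (m - 1) * y + k * y ^ 2) * B - 1 =
        (T ^ m * B - 1) + ((m : R[X]) * T ^ (m - 1) * y + k * y ^ 2) * B := by ring
      rw [h2, hE, hy]
      ring
    rw [h1]
    refine dvd_add ?_ (dvd_mul_right _ _)
    rw [pow_succ X (N + 1)]
    refine mul_dvd_mul_left _ ?_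
    rw [X_dvd_iff, coeff_sub, mul_assoc, mul_assoc]
    have h3 : ((m : R[X]) * (Polynomial.C (h * E.coeff 0) * (T ^ (m - 1) * B))).coeff 0 =
        (m : R) * (h * E.coeff 0) := by
      rw [mul_coeff_zero, mul_coeff_zero, mul_coeff_zero, coeff_natCast_ite, if_pos rfl,
        coeff_C_zero, coeff_zero_eq_eval_zero (T ^ (m - 1)), eval_pow,
        ← coeff_zero_eq_eval_zero, hT, one_pow, hB]
      ring
    rw [h3, ← mul_assoc, hh, one_mul, sub_self]

theorem prod_reflect_coeff {ι : Type} [Fintype ι] {R : Type} [CommRing R] (ρ nd : ι → ℕ)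
    (a : ι → R[X]) (ha : ∀ l, (a l).Monic ∧ (a l).natDegree = nd l) :
    (∏ l, reflect (nd l) (a l) ^ ρ l).coeff 0 = 1 := by
  rw [coeff_zero_eq_eval_zero, eval_prod]
  refine Finset.prod_eq_one fun l _ => ?_
  rw [eval_pow, ← coeff_zero_eq_eval_zero, coeff_reflect, revAt_le (Nat.zero_le _), Nat.sub_zero,
    ← (ha l).2]
  rw [show (a l).coeff (a l).natDegree = 1 from (ha l).1, one_pow]

theorem i_Root : I_Root := by
  intro ι _ R _ _ m N ρ nd h hh a ha
  have hB := prod_reflect_coeff ρ nd a ha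
  induction N with
  | zero =>
    refine ⟨1, coeff_one_zero, ?_⟩
    rw [one_pow, one_mul, zero_add, pow_one, X_dvd_iff, coeff_sub, hB, coeff_one_zero, sub_self]
  | succ N ih =>
    obtain ⟨T, hT, hd⟩ := ih
    exact root_step m N h hh _ T hB hT hd

end Pool.Agent.Helper62.IX
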