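import Pool.Agent.Helper62.IX.Core
import Pool.Agent.Helper62.IX.Root
import Pool.Agent.Helper62.HX.Prep

/-!
# The eigen-summands over a ring of definition
-/

set_option autoImplicit false

open Polynomial Matrix Finset NumberField IsDedekindDomain

namespace Pool.Agent.Helper62.IX

open Pool.Agent.Helper62.BM Pool.Agent.Helper62.BX Pool.Agent.Helper62.CX Pool.Agent.Helper62.GX
  Pool.Agent.Helper62.JX Pool.Agent.Helper62.HX
  Pool.Agent.Helper90.BM Pool.Agent.Helper4.BM Pool.Agent.Helper4.BX Pool.Agent.Helper4.CX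
  Pool.Agent.Helper4.GX
open Pool.Agent.Helper62.BW (dt coeff_dt map_dt sep_clear sep_map map_ne Fam Dat Gen)
open Pool.Agent.Helper4.BW (map_evalRingHom)

section nat

variable {ι : Type} [Fintype ι] [DecidableEq ι]

theorem sum_vis' (m r : ℕ) (e nd : ι → ℕ) :
    ∑ l : Vis m r e, rho m r e l * nd l = ∑ l, rho m r e l * nd l := by
  rw [← Finset.sum_subtype (univ.filter fun l => ¬ m ∣ r * e l) (by simp)
    (fun l => rho m r e l * nd l)]
  refine Finset.sum_filter_of_ne fun l _ h h' => h ?_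
  unfold rho
  rw [Nat.mod_eq_zero_of_dvd h', zero_mul]

theorem sum_mod' (m r : ℕ) (e nd : ι → ℕ) :
    m ∣ ∑ l, rho m r e l * nd l ↔ m ∣ r * ∑ l, e l * nd l := by
  have h : (∑ l, rho m r e l * nd l) ≡ r * ∑ l, e l * nd l [MOD m] := by
    rw [Finset.mul_sum]
    unfold Nat.ModEq
    rw [Finset.sum_nat_mod, Finset.sum_nat_mod univ m fun l => r * (e l * nd l)]
    congr 1
    refine Finset.sum_congr rfl fun l _ => ?_
    unfold rho
    rw [← mul_assoc, Nat.mod_mul_mod]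
  exact h.dvd_iff dvd_rfl

theorem vis_pos {m r : ℕ} (hm : 0 < m) {e : ι → ℕ} (l : Vis m r e) :
    0 < rho m r e l ∧ rho m r e l < m :=
  ⟨Nat.pos_of_ne_zero fun h => l.2 (Nat.dvd_of_mod_eq_zero h), Nat.mod_lt _ hm⟩

theorem vis_add {m r : ℕ} (hm : 0 < m) {e : ι → ℕ} (i j : Vis m r e)
    (h : m ∣ r * (e i + e j)) : rho m r e i + rho m r e j = m := by
  obtain ⟨a1, a2⟩ := vis_pos hm i
  obtain ⟨b1, b2⟩ := vis_pos hm j
  have h1 : m ∣ rho m r e i + rho m r e j := by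
    have h2 : (rho m r e i + rho m r e j) ≡ r * e i + r * e j [MOD m] :=
      Nat.ModEq.add (Nat.mod_modEq _ _) (Nat.mod_modEq _ _)
    rw [← mul_add] at h2
    exact (h2.dvd_iff dvd_rfl).2 h
  obtain ⟨c, hc⟩ := h1
  have hc1 : c = 1 := by
    rcases Nat.lt_trichotomy c 1 with h4 | h4 | h4
    · have : c = 0 := by omega
      rw [this, mul_zero] at hc
      omega
    · exact h4
    · have : m * 2 ≤ m * c := Nat.mul_le_mul_left _ h4
      omega
  rw [hc, hc1, mul_one]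

theorem vis_half {m r : ℕ} {e : ι → ℕ} (hr : 0 < r) (hm : 2 * r = m) (l : Vis m r e) :
    2 * rho m r e l = m := by
  have h1 : ¬ 2 ∣ e l := by
    rintro ⟨c, hc⟩
    apply l.2
    rw [hc, ← hm]
    exact ⟨c, by ring⟩
  obtain ⟨c, hc⟩ : ∃ c, e l = 2 * c + 1 := ⟨e l / 2, by omega⟩
  have h2 : rho m r e l = r := by
    unfold rho
    rw [hc, ← hm]
    have : r * (2 * c + 1) = r + 2 * r * c := by ring
    rw [this, Nat.add_mul_mod_self_left]
    exact Nat.mod_eq_of_lt (by omega)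
  rw [h2, hm]

theorem c_lt {m n c : ℕ} {ρ nd : ι → ℕ} {i₁ i₂ : ι} (hne : i₁ ≠ i₂)
    (hρ : ∀ l, 0 < ρ l ∧ ρ l < m) (hadd : ρ i₁ + ρ i₂ = m) (hn : 1 ≤ n)
    (hN : n + 2 = ∑ l, nd l) (hc : m * (c + 1) = ∑ l, ρ l * nd l) (h1 : 1 ≤ nd i₁)
    (h2 : 1 ≤ nd i₂) : c < n := by
  have h3 := dG_lt (m := m) (N := n + 1) hne hρ hadd (by omega) (by omega) h1 h2
  have hm : 0 < m := (hρ i₁).1.trans (hρ i₁).2
  have h4 : dG m ρ nd = c + 1 := by
    unfold dG
    rw [← hc]
    exact Nat.mul_div_cancel_left _ hm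
  omega

end nat

section ring

variable {ι : Type} [Fintype ι] [DecidableEq ι]

/-- The ring of definition of a node. -/
theorem node_set {R L : Type} [CommRing R] [IsDomain R] [Field L] [Algebra R L] (i₁ i₂ : ι)
    (a : ι → R[X][X]) (t₀ x₀ : L) (a₁ : ι → L[X])
    (hN : NodeG i₁ i₂ (fun l => (a l).map (mapRingHom (algebraMap R L))) t₀ x₀ a₁) :
    ∃ S : Finset L, ∀ A : Subalgebra R L, (∀ y ∈ S, y ∈ A) → ∃ (t x : A) (a' : ι → A[X]),
      NodeG i₁ i₂ (fun l => (a l).map (mapRingHom (algebraMap R A))) t x a' := by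
  classical
  refine ⟨{t₀, x₀} ∪ univ.biUnion (fun l => (a₁ l).coeffs), fun A hsub => ?_⟩
  have ht : t₀ ∈ A := hsub _ (by simp)
  have hx : x₀ ∈ A := hsub _ (by simp)
  have hfa : ∀ l n, (a₁ l).coeff n ∈ A := by
    intro l n
    by_cases h : (a₁ l).coeff n = 0
    · rw [h]; exact A.zero_mem
    · exact hsub _ (Finset.mem_union_right _ (Finset.mem_biUnion.2 ⟨l, Finset.mem_univ _,
          coeff_mem_coeffs h⟩))
  set ψ : A →+* L := (A.val : A →+* L) with hψ
  have hval : Function.Injective ψ := Subtype.val_injective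
  have hex : ∀ l, ∃ f : A[X], f.map ψ = a₁ l := by
    intro l
    have h1 : a₁ l ∈ Polynomial.lifts ψ := (Polynomial.lifts_iff_coeff_lifts (a₁ l)).2 fun n =>
      ⟨⟨(a₁ l).coeff n, hfa l n⟩, rfl⟩
    exact (Polynomial.mem_lifts _).1 h1
  choose a' haa using hex
  have hFF : ∀ F : R[X][X], (F.map (mapRingHom (algebraMap R A))).map (mapRingHom ψ) =
      F.map (mapRingHom (algebraMap R L)) := by
    intro F
    rw [Polynomial.map_map, mapRingHom_comp]
    rfl
  have hprod : (∏ l, a' l).map ψ = ∏ l, a₁ l := by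
    rw [Polynomial.map_prod]
    exact Finset.prod_congr rfl fun l _ => haa l
  obtain ⟨k0, k1, k3, k4⟩ := hN
  refine ⟨⟨t₀, ht⟩, ⟨x₀, hx⟩, a', k0, fun l => ?_, ?_, ?_⟩
  · apply Polynomial.map_injective ψ hval
    rw [map_evalRingHom, hFF]
    have h2 := k1 l
    by_cases hl : l = i₁ ∨ l = i₂
    · rw [if_pos hl] at h2 ⊢
      rw [Polynomial.map_mul, Polynomial.map_sub, Polynomial.map_X, Polynomial.map_C, haa]
      exact h2
    · rw [if_neg hl] at h2 ⊢
      rw [haa]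
      exact h2
  · have h1 : (∏ l, a₁ l).Separable := (separable_map _).1 k3
    rw [← hprod] at h1
    set L' : FractionRing A →+* L := IsFractionRing.lift (K := FractionRing A) hval with hL
    have h3 : L'.comp (algebraMap A (FractionRing A)) = ψ := by
      ext x
      rw [RingHom.comp_apply, hL, IsFractionRing.lift_algebraMap]
    rw [← separable_map L', Polynomial.map_map, h3]
    exact h1
  · intro h
    apply k4
    have h1 := congrArg ψ h
    rw [map_zero, ← Polynomial.eval_map_apply, hprod] at h1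
    exact h1

theorem genG_vis {A : Type} [CommRing A] {m r : ℕ} {e nd : ι → ℕ} {a : ι → A[X][X]}
    (h : GenG nd a) : GenG (fun l : Vis m r e => nd l) (fun l : Vis m r e => a l) := by
  refine ⟨fun l => h.1 l, ?_⟩
  refine h.2.of_dvd (Polynomial.map_dvd _ ?_)
  rw [← Finset.prod_subtype (univ.filter fun l => ¬ m ∣ r * e l) (by simp) (fun l => a l)]
  exact Finset.prod_dvd_prod_of_subset _ _ _ (Finset.filter_subset _ _)

theorem YG_vis {R : Type} [CommRing R] (m r p k d : ℕ) (e : ι → ℕ) (a : ι → R[X]) :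
    YG p (fun j => rho m r e j * k) d d a =
      YG p (fun j : Vis m r e => rho m r e j * k) d d (fun j : Vis m r e => a j) := by
  ext1 i j
  unfold YG
  rw [Matrix.of_apply, Matrix.of_apply]
  congr 2
  rw [← Finset.prod_subtype (univ.filter fun l => ¬ m ∣ r * e l) (by simp)
    (fun l => a l ^ (rho m r e l * k))]
  have h1 : ∏ l ∈ univ.filter (fun l => ¬ m ∣ r * e l), a l ^ (rho m r e l * k) =
      ∏ l, a l ^ (rho m r e l * k) := by
    refine Finset.prod_filter_of_ne fun l _ h h' => h ?_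
    unfold rho
    rw [Nat.mod_eq_zero_of_dvd h', zero_mul, pow_zero]
  rw [h1]

/-- The node of the product. -/
theorem node1_prod {A : Type} [CommRing A] {i₁ i₂ : ι} {a : ι → A[X][X]} {t₀ x₀ : A}
    {a₁ : ι → A[X]} (hNd : NodeG i₁ i₂ a t₀ x₀ a₁) :
    Pool.Agent.Helper62.VX.Node1 (∏ l, a l) t₀ x₀ (∏ l, a₁ l) := by
  refine ⟨?_, hNd.2.2.1, hNd.2.2.2⟩
  rw [Polynomial.map_prod]
  have h1 : ∀ l, (a l).map (evalRingHom t₀) =
      (X - Polynomial.C x₀) ^ (if l = i₁ ∨ l = i₂ then 1 else 0 : ℕ) * a₁ l := by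
    intro l
    rw [hNd.2.1 l]
    split_ifs
    · rw [pow_one]
    · rw [pow_zero, one_mul]
  have h2 : ∑ l, (if l = i₁ ∨ l = i₂ then 1 else 0 : ℕ) = 2 := by
    rw [Finset.sum_boole]
    have h3 : (univ.filter fun l => l = i₁ ∨ l = i₂) = {i₁, i₂} := by
      ext l; simp
    rw [h3, Finset.card_pair hNd.1]
    rfl
  rw [Finset.prod_congr rfl fun l _ => h1 l, Finset.prod_mul_distrib, Finset.prod_pow_eq_pow_sum,
    h2]

end ring

section cases

variable {ι : Type} [Fintype ι] [DecidableEq ι]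

theorem caseB (iData : I_Data) (hDataE : H_Data) (iFewA : I_FewA) {A : Type} [CommRing A]
    [IsDomain A] [CharZero A] [Countable A] {L : Type} [Field L] [CharZero L] (θ : A →+* L)
    (hθ : Function.Injective θ) {m r : ℕ} (hm0 : 0 < m) (hr : 0 < r) {e nd : ι → ℕ}
    (hinvm : ∃ h : A, (m : A) * h = 1) (hinv2 : ∃ h : A, (2 : A) * h = 1) (aA : ι → A[X][X])
    (hGenV : GenG (fun l : Vis m r e => nd l) (fun l : Vis m r e => aA l)) (i j : Vis m r e)
    (tA xA : A) (aA' : Vis m r e → A[X]) (hij : m ∣ r * (e i + e j))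
    (hNA : NodeG i j (fun l : Vis m r e => aA l) tA xA aA') (n c : ℕ) (hn : 2 ≤ n)
    (hnN : n + 2 = ∑ l : Vis m r e, nd l)
    (hc : m * (c + 1) = ∑ l : Vis m r e, rho m r e l * nd l)
    (hirr : IrrI L m (fun l : Vis m r e => rho m r e l) (fun l : Vis m r e => nd l) n c
      (fun l : Vis m r e => (aA l).map (mapRingHom θ)))
    (hform : 2 * r = m ∨ n = 2 ∨ Odd n ∨
      NoBilI L m (fun l : Vis m r e => rho m r e l) (fun l : Vis m r e => nd l) n c
        (fun l : Vis m r e => (aA l).map (mapRingHom θ)))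
    (H : MvPolynomial (Fin c × Fin c) A[X]) (hH : H ≠ 0) (ε : ℝ) (hε : 0 < ε) :
    ∃ (p₀ : ℕ) (a₀ : A), a₀ ≠ 0 ∧
      ∀ (p : ℕ) [Fact p.Prime] (k : Type) [Field k] [CharP k p] (φ : A →+* k), p₀ ≤ p →
      m ∣ p - 1 → φ a₀ ≠ 0 → ∀ T : Finset k, (∀ t ∈ T, t ^ p = t ∧
        MvPolynomial.eval₂ ((evalRingHom t).comp (mapRingHom φ))
          (fun s : Fin c × Fin c =>
          (YG p (fun j => rho m r e j * ((p - 1) / m)) c c
            (fun j => (aA j).map (mapRingHom φ)) s.1 s.2).eval t) H = 0) →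
        (T.card : ℝ) ≤ ε * p := by
  have hρ : ∀ l : Vis m r e, 0 < rho m r e l ∧ rho m r e l < m := fun l => vis_pos hm0 l
  have hρ2 := vis_add hm0 i j hij
  have hnd1 : 1 ≤ nd i := nd_pos hGenV hNA i (Or.inl rfl)
  have hnd2 : 1 ≤ nd j := nd_pos hGenV hNA j (Or.inr rfl)
  have hcn : c < n := c_lt (ρ := fun l : Vis m r e => rho m r e l)
    (nd := fun l : Vis m r e => nd l) hNA.1 hρ hρ2 (by omega) hnN hc hnd1 hnd2
  obtain ⟨hm, hhm⟩ := hinvm
  obtain ⟨T, hT⟩ := i_Root (Vis m r e) A[X] m (n + 1) (fun l : Vis m r e => rho m r e l)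
    (fun l : Vis m r e => nd l) (Polynomial.C hm) (by
      rw [← map_natCast (Polynomial.C : A →+* A[X]) m, ← map_mul, hhm, map_one])
    (fun l : Vis m r e => aA l) hGenV.1
  have hdat := iData (Vis m r e) A m n (fun l : Vis m r e => rho m r e l)
    (fun l : Vis m r e => nd l) ⟨c, by omega⟩ i j hρ hρ2 hn hnN hc _ hGenV T hT tA xA aA' hNA
  obtain ⟨p₀, a₀, ha₀, hfew⟩ := iFewA (Vis m r e) m n (fun l : Vis m r e => rho m r e l)
    (fun l : Vis m r e => nd l) ⟨c, by omega⟩ hρ hn hcn hnN hc A L θ hθ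
    (fun l : Vis m r e => aA l) ⟨T, hdat⟩ (by
      intro g hg2 hng
      obtain ⟨h, hh⟩ := hinv2
      have hPm : (∏ l : Vis m r e, aA l).Monic :=
        monic_prod_of_monic _ _ fun l _ => (hGenV.1 l).1
      have hPd : (∏ l : Vis m r e, aA l).natDegree = 2 * (g + 1) := by
        rw [natDegree_prod_of_monic _ _ fun l _ => (hGenV.1 l).1,
          Finset.sum_congr rfl fun l _ => (hGenV.1 l).2, ← hnN, hng]
        ring
      obtain ⟨Gs, hG1, hG2, hG3⟩ := sqrt_exists (Polynomial.C h) (by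
        rw [← map_ofNat (Polynomial.C : A →+* A[X]) 2, ← map_mul, hh, map_one]) (g + 1)
        (by omega) _ hPm hPd
      obtain ⟨Hs, hHs⟩ : ∃ Hs, Hs = ∏ l : Vis m r e, aA l - Gs ^ 2 := ⟨_, rfl⟩
      rw [← hHs] at hG3
      have hFG' : ∏ l : Vis m r e, aA l = Gs ^ 2 + Hs := by rw [hHs]; ring
      have hGenE : GenE g Gs Hs := by
        refine ⟨hG1, hG2, by simpa using hG3, ?_⟩
        rw [← hFG']
        exact hGenV.2
      have hN1 := node1_prod hNA
      rw [hFG'] at hN1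
      obtain ⟨D, P, Q, hFam, hOk⟩ := hDataE A g (by omega) Gs Hs hGenE tA xA (∏ l, aA' l) hN1
      exact ⟨Gs, Hs, D, P, Q, hFG', hFam, hOk⟩) hirr (by
      rcases hform with h | h | h | h
      · exact Or.inl (fun l => vis_half hr h l)
      · exact Or.inr (Or.inl h)
      · exact Or.inr (Or.inr (Or.inl h))
      · exact Or.inr (Or.inr (Or.inr h)))
    H hH ε hε
  refine ⟨p₀, a₀, ha₀, fun p _ k _ _ ψ hp hmp hψ Z hZ => ?_⟩
  refine hfew p k ψ hp hmp hψ Z fun t ht => ⟨(hZ t ht).1, ?_⟩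
  rw [← (hZ t ht).2]
  congr 1
  funext s
  rw [YG_vis m r p ((p - 1) / m) c e]

theorem caseA (hData : G_Data) (hHalf : G_Half) (hFewA : G_FewA) {A : Type} [CommRing A]
    [IsDomain A] [CharZero A] [Countable A] {L : Type} [Field L] [CharZero L] (θ : A →+* L)
    (hθ : Function.Injective θ) {m r : ℕ} (hm0 : 0 < m) (hr : 0 < r) {e nd : ι → ℕ}
    (aA : ι → A[X][X])
    (hGenV : GenG (fun l : Vis m r e => nd l) (fun l : Vis m r e => aA l)) (i j : Vis m r e)
    (tA xA : A) (aA' : Vis m r e → A[X]) (hij : m ∣ r * (e i + e j))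
    (hNA : NodeG i j (fun l : Vis m r e => aA l) tA xA aA') (N : ℕ) (hN2 : 2 ≤ N)
    (hNn : N + 1 = ∑ l : Vis m r e, nd l)
    (hnd : ¬ m ∣ ∑ l : Vis m r e, rho m r e l * nd l)
    (hirr : IrrG L m (fun l : Vis m r e => rho m r e l) N
      (fun l : Vis m r e => (aA l).map (mapRingHom θ)))
    (hform : 2 * r = m ∨ N = 2 ∨ Odd N ∨
      NoBilG L m (fun l : Vis m r e => rho m r e l) N
        (fun l : Vis m r e => (aA l).map (mapRingHom θ))) (c : ℕ)
    (hc : dG m (fun l : Vis m r e => rho m r e l) (fun l : Vis m r e => nd l) = c)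
    (H : MvPolynomial (Fin c × Fin c) A[X]) (hH : H ≠ 0) (ε : ℝ) (hε : 0 < ε) :
    ∃ (p₀ : ℕ) (a₀ : A), a₀ ≠ 0 ∧
      ∀ (p : ℕ) [Fact p.Prime] (k : Type) [Field k] [CharP k p] (φ : A →+* k), p₀ ≤ p →
      m ∣ p - 1 → φ a₀ ≠ 0 → ∀ T : Finset k, (∀ t ∈ T, t ^ p = t ∧
        MvPolynomial.eval₂ ((evalRingHom t).comp (mapRingHom φ))
          (fun s : Fin c × Fin c =>
          (YG p (fun j => rho m r e j * ((p - 1) / m)) c c
            (fun j => (aA j).map (mapRingHom φ)) s.1 s.2).eval t) H = 0) →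
        (T.card : ℝ) ≤ ε * p := by
  subst hc
  have hρ : ∀ l : Vis m r e, 0 < rho m r e l ∧ rho m r e l < m := fun l => vis_pos hm0 l
  have hρ2 := vis_add hm0 i j hij
  have hnd1 : 1 ≤ nd i := nd_pos hGenV hNA i (Or.inl rfl)
  have hnd2 : 1 ≤ nd j := nd_pos hGenV hNA j (Or.inr rfl)
  obtain ⟨p₀, a₀, ha₀, hfew⟩ := hFewA (Vis m r e) m N (fun l : Vis m r e => rho m r e l)
    (fun l : Vis m r e => nd l) hρ hnd hN2
    (dG_lt hNA.1 hρ hρ2 hN2 hNn hnd1 hnd2) hNn A L θ hθ (fun l : Vis m r e => aA l)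
    (hData (Vis m r e) A m N _ _ i j hρ hρ2 hN2 hNn _ hGenV tA xA aA' hNA)
    (fun g _ hg => hHalf (Vis m r e) A g _ i j (by omega) (by omega) _ hGenV tA xA aA' hNA)
    hirr (by
      rcases hform with h | h | h | h
      · exact Or.inl (fun l => vis_half hr h l)
      · exact Or.inr (Or.inl h)
      · exact Or.inr (Or.inr (Or.inl h))
      · exact Or.inr (Or.inr (Or.inr h))) H hH ε hε
  refine ⟨p₀, a₀, ha₀, fun p _ k _ _ ψ hp hmp hψ Z hZ => ?_⟩
  refine hfew p k ψ hp hmp hψ Z fun t ht => ⟨(hZ t ht).1, ?_⟩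
  rw [← (hZ t ht).2]
  congr 1
  funext s
  rw [YG_vis m r p ((p - 1) / m) _ e]

end cases

end Pool.Agent.Helper62.IX
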