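import Pool.Agent.Helper62.BX.Conc

/-!
# Conditions on the places
-/

set_option autoImplicit false

open Polynomial Finset NumberField IsDedekindDomain

namespace Pool.Agent.Helper62.IX

open Pool.Agent.Helper62.BM Pool.Agent.Helper62.BW Pool.Agent.Helper62.BX

theorem few_cond {K : Type} [Field K] [NumberField K] {r : ℕ}
    {Cond : HeightOneSpectrum (𝓞 K) → Prop}
    {Good : HeightOneSpectrum (𝓞 K) → (Fin r → ℕ) → ℕ → Prop} (hFew : FewR Cond Good) :
    FewR (fun _ => True) (fun v s t => Cond v → Good v s t) := by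
  classical
  intro ε hε
  obtain ⟨c, hc, h⟩ := hFew ε hε
  refine ⟨c, hc, h.subset ?_⟩
  rintro v ⟨hv, -, s, hs, hlt⟩
  by_cases h1 : Cond v
  · refine ⟨hv, h1, s, hs, hlt.trans_le ?_⟩
    refine Nat.cast_le.2 (Finset.card_le_card fun t ht => ?_)
    simp only [Finset.mem_filter] at ht ⊢
    exact ⟨ht.1, fun h2 => ht.2 fun _ => h2⟩
  · exfalso
    refine absurd hlt (not_lt.2 (le_trans (le_of_eq ?_) (mul_nonneg hε.le (Nat.cast_nonneg _))))
    rw [Nat.cast_eq_zero, Finset.card_eq_zero]
    refine Finset.eq_empty_of_forall_notMem fun t ht => ?_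
    simp only [Finset.mem_filter] at ht
    exact ht.2 fun h3 => absurd h3 h1

theorem per_cond {K : Type} [Field K] [NumberField K] {r : ℕ}
    {Cond : HeightOneSpectrum (𝓞 K) → Prop}
    {Good : HeightOneSpectrum (𝓞 K) → (Fin r → ℕ) → ℕ → Prop} (hPer : Per Good) :
    Per (fun v s t => Cond v → Good v s t) := by
  intro v hv s t
  exact imp_congr_right fun _ => hPer v hv s t

end Pool.Agent.Helper62.IX
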