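import Pool.Agent.Helper62.IX.Cases

/-!
# `I_FewR` without conditions on the summands which have no regular forms
-/

set_option autoImplicit false

open Polynomial Matrix Finset NumberField IsDedekindDomain

namespace Pool.Agent.Helper62.IX

open Pool.Agent.Helper62.BM Pool.Agent.Helper62.BX Pool.Agent.Helper62.CX Pool.Agent.Helper62.GX
  Pool.Agent.Helper62.JX Pool.Agent.Helper62.HX
  Pool.Agent.Helper90.BM Pool.Agent.Helper4.BM Pool.Agent.Helper4.BX Pool.Agent.Helper4.CX
  Pool.Agent.Helper4.GX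
open Pool.Agent.Helper62.BW (dt coeff_dt map_dt sep_clear sep_map map_ne Fam Dat Gen)
open Pool.Agent.Helper4.BW (map_evalRingHom)

/-- `I_FewR` without conditions on the summands which have no regular forms. -/
def I_FewR0 : Prop :=
  ∀ (K : Type) [Field K] [NumberField K] (ι : Type) [Fintype ι] [DecidableEq ι] (q m : ℕ)
    (e nd : ι → ℕ), 2 ≤ m → ∀ (a : ι → (Rp K q)[X][X]) (φ : (Rp K q)[X]), GenG nd a →
    (∀ r, 0 < r → r < m → dI m e nd r ≠ 0 →
      (¬ m ∣ r * ∑ l, e l * nd l → BigR (Cl K q) m r e nd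
        (fun l => (a l).map (mapRingHom (algebraMap (Rp K q) (Cl K q))))) ∧
      (m ∣ r * ∑ l, e l * nd l → BigV (Cl K q) m r e nd
        (fun l => (a l).map (mapRingHom (algebraMap (Rp K q) (Cl K q)))))) → 1 ≤ φ.natDegree →
    ∀ G : ∀ r, MvPolynomial (Fin (dI m e nd r) × Fin (dI m e nd r)) (Rp K q)[X],
    (∀ r, G r ≠ 0) → FewR (fun v => m ∣ Ideal.absNorm v.asIdeal - 1)
      (GoodDp m (dI m e nd) e a φ G)

theorem case0 {ι : Type} [Fintype ι] [DecidableEq ι] {A : Type} [CommRing A] [IsDomain A]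
    (m r : ℕ) (e : ι → ℕ) (aA : ι → A[X][X]) (c : ℕ) (hc : c = 0)
    (H : MvPolynomial (Fin c × Fin c) A[X]) (hH : H ≠ 0) (ε : ℝ) (hε : 0 < ε) :
    ∃ (p₀ : ℕ) (a₀ : A), a₀ ≠ 0 ∧
      ∀ (p : ℕ) [Fact p.Prime] (k : Type) [Field k] [CharP k p] (φ : A →+* k), p₀ ≤ p →
      m ∣ p - 1 → φ a₀ ≠ 0 → ∀ T : Finset k, (∀ t ∈ T, t ^ p = t ∧
        MvPolynomial.eval₂ ((evalRingHom t).comp (mapRingHom φ))
          (fun s : Fin c × Fin c =>
          (YG p (fun j => rho m r e j * ((p - 1) / m)) c c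
            (fun j => (aA j).map (mapRingHom φ)) s.1 s.2).eval t) H = 0) →
        (T.card : ℝ) ≤ ε * p := by
  classical
  subst hc
  obtain ⟨h, rfl⟩ := MvPolynomial.C_surjective (Fin 0 × Fin 0) H
  have hh : h ≠ 0 := by
    rintro rfl
    exact hH (map_zero _)
  obtain ⟨p₀, hp₀⟩ := exists_nat_gt (h.natDegree / ε : ℝ)
  refine ⟨p₀, h.leadingCoeff, leadingCoeff_ne_zero.2 hh, ?_⟩
  intro p _ k _ _ φ hp _ hφ T hT
  have h1 : h.map φ ≠ 0 := map_ne φ h hφ
  have h2 : T ⊆ (h.map φ).roots.toFinset := by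
    intro t ht
    rw [Multiset.mem_toFinset, mem_roots h1, IsRoot.def]
    have h3 := (hT t ht).2
    rw [MvPolynomial.eval₂_C] at h3
    exact h3
  have h4 : T.card ≤ h.natDegree :=
    (Finset.card_le_card h2).trans ((Multiset.toFinset_card_le _).trans
      ((card_roots' _).trans natDegree_map_le))
  have h5 : (T.card : ℝ) ≤ h.natDegree := by exact_mod_cast h4
  have h6 : (p₀ : ℝ) ≤ p := by exact_mod_cast hp
  rw [div_lt_iff₀ hε] at hp₀
  nlinarith

/-- `I_FewR0`. -/
theorem i_FewR0 (hData : G_Data) (hHalf : G_Half) (hFewA : G_FewA) (iData : I_Data)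
    (hDataE : H_Data) (iFewA : I_FewA) (hSpread : X_Spread) : I_FewR0 := by
  classical
  intro K _ _ ι _ _ nr m e nd hm2 a φ hGen hbig hφ G hG0
  have hm0 : 0 < m := by omega
  -- the ring of definition
  have hex : ∀ r, ∃ S : Finset (Cl K nr), ∀ A : Subalgebra (Rp K nr) (Cl K nr),
      (∀ y ∈ S, y ∈ A) → 0 < r → r < m → dI m e nd r ≠ 0 → ∃ (i j : Vis m r e) (t x : A)
        (a' : Vis m r e → A[X]), m ∣ r * (e i + e j) ∧
        NodeG i j (fun l : Vis m r e => (a l).map (mapRingHom (algebraMap (Rp K nr) A)))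
          t x a' := by
    intro r
    by_cases hr : 0 < r ∧ r < m ∧ dI m e nd r ≠ 0
    · have hnode : ∃ (i j : Vis m r e) (t₀ x₀ : Cl K nr) (a₁ : Vis m r e → (Cl K nr)[X]),
          m ∣ r * (e i + e j) ∧ NodeG i j (fun l : Vis m r e =>
            (a l).map (mapRingHom (algebraMap (Rp K nr) (Cl K nr)))) t₀ x₀ a₁ := by
        by_cases hd : m ∣ r * ∑ l, e l * nd l
        · obtain ⟨-, -, -, -, -, h, -⟩ := (hbig r hr.1 hr.2.1 hr.2.2).2 hd
          exact h
        · obtain ⟨-, -, -, h, -⟩ := (hbig r hr.1 hr.2.1 hr.2.2).1 hd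
          exact h
      obtain ⟨i, j, t₀, x₀, a₁, hij, hN⟩ := hnode
      obtain ⟨S, hS⟩ := node_set i j (fun l : Vis m r e => a l) t₀ x₀ a₁ hN
      refine ⟨S, fun A hA _ _ _ => ?_⟩
      obtain ⟨t, x, a', h⟩ := hS A hA
      exact ⟨i, j, t, x, a', hij, h⟩
    · exact ⟨∅, fun A _ h1 h2 h3 => absurd ⟨h1, h2, h3⟩ hr⟩
  choose S hS using hex
  obtain ⟨A, hFG, hSA, hmA, h2A⟩ : ∃ A : Subalgebra (Rp K nr) (Cl K nr), A.FG ∧
      (∀ r, r < m → ∀ y ∈ S r, y ∈ A) ∧ ((m : Cl K nr)⁻¹ ∈ A) ∧ ((2 : Cl K nr)⁻¹ ∈ A) := by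
    refine ⟨Algebra.adjoin (Rp K nr) (((range m).biUnion S ∪
      {(m : Cl K nr)⁻¹, (2 : Cl K nr)⁻¹} : Finset (Cl K nr)) : Set (Cl K nr)), ⟨_, rfl⟩, ?_, ?_, ?_⟩
    · intro r hr y hy
      exact Algebra.subset_adjoin (Finset.mem_coe.2 (Finset.mem_union_left _
        (Finset.mem_biUnion.2 ⟨r, Finset.mem_range.2 hr, hy⟩)))
    · exact Algebra.subset_adjoin (Finset.mem_coe.2 (Finset.mem_union_right _ (by simp)))
    · exact Algebra.subset_adjoin (Finset.mem_coe.2 (Finset.mem_union_right _ (by simp)))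
  have hval : Function.Injective (A.val : A →+* (Cl K nr)) := Subtype.val_injective
  have hRL : Function.Injective (algebraMap (Rp K nr) (Cl K nr)) := by
    rw [IsScalarTower.algebraMap_eq (Rp K nr) (FractionRing (Rp K nr)) (Cl K nr)]
    exact (algebraMap (FractionRing (Rp K nr)) (Cl K nr)).injective.comp
      (IsFractionRing.injective (Rp K nr) _)
  have h1 : Function.Injective (algebraMap (Rp K nr) A) := by
    intro x y hxy
    exact hRL (congrArg (fun z : A => (z : (Cl K nr))) hxy)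
  have h2 : Algebra.FiniteType (Rp K nr) A := (Subalgebra.fg_iff_finiteType A).mp hFG
  have hCZ : CharZero A := charZero_of_injective_algebraMap h1
  have hCL : CharZero (Cl K nr) := charZero_of_injective_algebraMap hRL
  have hCR := countable_Rp K nr
  have hCt : Countable A := countable_ft (Rp K nr) A
  have hGenA := genG_map (algebraMap (Rp K nr) A) h1 hGen
  have hab : ∀ F : (Rp K nr)[X][X], (F.map (mapRingHom (algebraMap (Rp K nr) A))).map
      (mapRingHom (A.val : A →+* (Cl K nr))) =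
      F.map (mapRingHom (algebraMap (Rp K nr) (Cl K nr))) := by
    intro F
    rw [Polynomial.map_map, mapRingHom_comp]
    rfl
  have hinvm : ∃ h : A, (m : A) * h = 1 := by
    refine ⟨⟨_, hmA⟩, hval ?_⟩
    rw [map_mul, map_one, map_natCast]
    exact mul_inv_cancel₀ (Nat.cast_ne_zero.2 hm0.ne')
  have hinv2 : ∃ h : A, (2 : A) * h = 1 := by
    refine ⟨⟨_, h2A⟩, hval ?_⟩
    rw [map_mul, map_one, map_ofNat]
    exact mul_inv_cancel₀ two_ne_zero
  refine few_coreD K ι nr m e nd (dI m e nd) hm2 a φ hGen hφ G hG0 hSpread A hFG ?_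
  intro r hr hrm
  obtain ⟨aA, haA⟩ : ∃ aA : ι → A[X][X],
    aA = fun l => (a l).map (mapRingHom (algebraMap (Rp K nr) A)) := ⟨_, rfl⟩
  by_cases hd0 : dI m e nd r = 0
  · have key := case0 m r e aA (dI m e nd r) hd0
    rw [haA] at key
    exact key
  obtain ⟨i, j, tA, xA, aA', hij, hNA⟩ := hS r A (hSA r hrm) hr hrm hd0
  have hNA' : NodeG i j (fun l : Vis m r e => aA l) tA xA aA' := by
    rw [haA]
    exact hNA
  have hGenV : GenG (fun l : Vis m r e => nd l) (fun l : Vis m r e => aA l) := by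
    rw [haA]
    exact genG_vis (m := m) (r := r) (e := e) hGenA
  have habA : (fun l : Vis m r e => (aA l).map (mapRingHom (A.val : A →+* (Cl K nr)))) =
      fun l : Vis m r e => (a l).map (mapRingHom (algebraMap (Rp K nr) (Cl K nr))) := by
    rw [haA]
    exact funext fun l => hab (a l)
  have hsum := sum_vis' m r e nd
  by_cases hd : m ∣ r * ∑ l, e l * nd l
  · obtain ⟨n, c, hn, hnN, hc, -, hirr, hform⟩ := (hbig r hr hrm hd0).2 hd
    have hdI : dI m e nd r = c := by
      unfold dI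
      rw [← hsum, ← hc]
      have h3 : m * (c + 1) - 1 = m * c + (m - 1) := by
        rw [mul_add, mul_one]
        omega
      rw [h3, Nat.mul_add_div hm0, Nat.div_eq_of_lt (by omega), add_zero]
    rw [hdI]
    rw [← habA] at hirr hform
    have key := caseB iData hDataE iFewA (A.val : A →+* (Cl K nr)) hval hm0 hr hinvm hinv2 aA
      hGenV i j tA xA aA' hij hNA' n c hn hnN hc hirr hform
    rw [haA] at key
    exact key
  · obtain ⟨N, hN2, hNn, -, hirr, hform⟩ := (hbig r hr hrm hd0).1 hd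
    have hnd : ¬ m ∣ ∑ l : Vis m r e, rho m r e l * nd l := by
      rw [hsum, sum_mod']
      exact hd
    have hdI : dG m (fun l : Vis m r e => rho m r e l)
        (fun l : Vis m r e => nd l) = dI m e nd r := by
      unfold dI dG
      rw [← hsum]
      obtain ⟨b, hb⟩ : ∃ b, ∑ l : Vis m r e, rho m r e l * nd l = b := ⟨_, rfl⟩
      rw [hb] at hnd ⊢
      have h3 : 0 < b % m := Nat.pos_of_ne_zero fun h => hnd (Nat.dvd_of_mod_eq_zero h)
      have h4 := Nat.div_add_mod b m
      have h5 := Nat.mod_lt b hm0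
      have h6 : b - 1 = m * (b / m) + (b % m - 1) := by omega
      rw [h6, Nat.mul_add_div hm0, Nat.div_eq_of_lt (a := b % m - 1) (by omega), add_zero]
    rw [← habA] at hirr hform
    have key := caseA hData hHalf hFewA (A.val : A →+* (Cl K nr)) hval hm0 hr aA
      hGenV i j tA xA aA' hij hNA' N hN2 hNn hnd hirr hform _ hdI
    rw [haA] at key
    exact key

end Pool.Agent.Helper62.IX
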