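import Pool.Agent.Helper62.IX.Stm
import Pool.Agent.Helper62.CX.Per

/-!
# The periodicity for all cyclic covers
-/

set_option autoImplicit false

open Finset Polynomial NumberField IsDedekindDomain

namespace Pool.Agent.Helper62.IX

open Pool.Agent.Helper62.BM Pool.Agent.Helper62.BW Pool.Agent.Helper62.BX Pool.Agent.Helper62.CX

theorem i_Per : I_Per := by
  intro K _ _ ι _ _ q m d e a φ G v hv s t
  have ha := fun l => mem_mod v hv s t φ (a l)
  have hp : ∀ F : ι → (𝓞 K)[X], rd v (∏ l, F l) = ∏ l, rd v (F l) := fun F =>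
    Polynomial.map_prod _ _ _
  unfold GoodDp GoodD
  simp only [hp, ha, MvPolynomial.eval₂_map, coef_mod v hv s t φ]

end Pool.Agent.Helper62.IX
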