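import Pool.Agent.Helper62.IX.Root

/-!
# The expansion at infinity is unique; the forms of the second kind
-/

set_option autoImplicit false

open Polynomial Finset NumberField IsDedekindDomain

namespace Pool.Agent.Helper62.IX

open Pool.Agent.Helper62.BM Pool.Agent.Helper62.BW Pool.Agent.Helper62.BX Pool.Agent.Helper62.CX
open Pool.Agent.Helper62.GX Pool.Agent.Helper62.JX

section

variable {E : Type} [Field E]

theorem coprime_X {Q : E[X]} (hQ : Q.coeff 0 ≠ 0) (N : ℕ) : IsCoprime (X ^ N) Q := by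
  refine IsCoprime.pow_left ?_
  rw [Irreducible.coprime_iff_not_dvd irreducible_X, X_dvd_iff]
  exact hQ

theorem root_unique [CharZero E] {ι : Type} [Fintype ι] {m N : ℕ} (hm : m ≠ 0)
    {ρ nd : ι → ℕ} {a : ι → E[X]} {T T' : E[X]} (h : RootT m N ρ nd a T)
    (h' : RootT m N ρ nd a T') : X ^ (N + 1) ∣ T - T' := by
  obtain ⟨h1, h2⟩ := h
  obtain ⟨h1', h2'⟩ := h'
  obtain ⟨B, hB⟩ : ∃ B : E[X], B = ∏ l, reflect (nd l) (a l) ^ ρ l := ⟨_, rfl⟩
  rw [← hB] at h2 h2'
  have hB0 : B.coeff 0 ≠ 0 := by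
    intro h0
    have h3 : X ∣ T ^ m * B - 1 := (dvd_pow_self X (Nat.succ_ne_zero N)).trans h2
    rw [X_dvd_iff, coeff_sub, mul_coeff_zero, h0, mul_zero, coeff_one_zero, zero_sub] at h3
    exact one_ne_zero (neg_eq_zero.1 h3)
  have h4 : X ^ (N + 1) ∣ (T ^ m - T' ^ m) * B := by
    have h5 : (T ^ m - T' ^ m) * B = (T ^ m * B - 1) - (T' ^ m * B - 1) := by ring
    rw [h5]
    exact dvd_sub h2 h2'
  have h6 := (coprime_X hB0 (N + 1)).dvd_of_dvd_mul_right h4
  rw [← geom_sum₂_mul] at h6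
  refine (coprime_X ?_ (N + 1)).dvd_of_dvd_mul_left h6
  rw [finsetSum_coeff]
  have h7 : ∀ i ∈ range m, (T ^ i * T' ^ (m - 1 - i)).coeff 0 = 1 := by
    intro i _
    rw [mul_coeff_zero, coeff_zero_eq_eval_zero, coeff_zero_eq_eval_zero, eval_pow, eval_pow,
      ← coeff_zero_eq_eval_zero, ← coeff_zero_eq_eval_zero, h1, h1', one_pow, one_pow, one_mul]
  rw [Finset.sum_congr rfl h7, Finset.sum_const, card_range, nsmul_eq_mul, mul_one]
  exact Nat.cast_ne_zero.2 hm

theorem mem_VI (N s : ℕ) (T u : E[X]) : u ∈ VI N s T ↔ u.degree < N ∧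
    ∑ l ∈ range N, (if l < s then 0 else T.coeff (l - s)) * u.coeff l = 0 := by
  unfold VI
  rw [Submodule.mem_inf, mem_degreeLT, LinearMap.mem_ker, LinearMap.sum_apply]
  rfl

end

section

variable {c : ℕ}

theorem sum_vis (m r : ℕ) (e nd : Fin c → ℕ) :
    ∑ l : Vis m r e, rho m r e l * nd l = ∑ l, rho m r e l * nd l := by
  rw [← Finset.sum_subtype (univ.filter fun l => ¬ m ∣ r * e l) (by simp)
    (fun l => rho m r e l * nd l)]
  refine Finset.sum_filter_of_ne fun l _ h h' => h ?_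
  unfold rho
  rw [Nat.mod_eq_zero_of_dvd h', zero_mul]

theorem sum_mod (m r : ℕ) (e nd : Fin c → ℕ) :
    m ∣ ∑ l, rho m r e l * nd l ↔ m ∣ r * ∑ l, e l * nd l := by
  have h : (∑ l, rho m r e l * nd l) ≡ r * ∑ l, e l * nd l [MOD m] := by
    rw [Finset.mul_sum]
    unfold Nat.ModEq
    rw [Finset.sum_nat_mod, Finset.sum_nat_mod univ m fun l => r * (e l * nd l)]
    congr 1
    refine Finset.sum_congr rfl fun l _ => ?_
    unfold rho
    rw [← mul_assoc, Nat.mod_mul_mod]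
  exact h.dvd_iff dvd_rfl

end

end Pool.Agent.Helper62.IX
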