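import Pool.Agent.Helper62.GX.Main
import Pool.Agent.Helper62.HX.Main
import Pool.Agent.Helper62.IX.FewG
import Pool.Agent.Helper62.IX.FewR0
import Pool.Agent.Helper62.IX.Per
import Pool.Agent.Helper62.IX.Prep
import Pool.Agent.Helper13.IX.Stab
import Pool.Agent.Helper38.IX.Data
import Pool.Agent.Helper41.IX.HR
import Pool.Agent.Helper59.IX.Half
import Pool.Agent.Helper72.IX.HW
import Pool.Agent.Helper82.IX.FewA
import Pool.Agent.Helper90.IX.Irr

/-!
# Assembly: all cyclic covers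
-/

set_option autoImplicit false

namespace Pool.Agent.Helper62.IX

open Pool.Agent.Helper62.BM Pool.Agent.Helper62.BW Pool.Agent.Helper62.BX Pool.Agent.Helper62.CX
open Pool.Agent.Helper62.VX Pool.Agent.Helper62.GX Pool.Agent.Helper62.HX

theorem iData : I_Data :=
  Pool.Agent.Helper38.IX.i_Data Pool.Agent.Helper13.IX.i_Stab Pool.Agent.Helper15.GX.g_Loc
    Pool.Agent.Helper15.GX.g_Rk

theorem iFewG : I_FewG :=
  i_FewG Pool.Agent.Helper4.BM.step cNV Pool.Agent.Helper12.BM.frac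
    (Pool.Agent.Helper72.IX.i_HWb Pool.Agent.Helper13.GX.g_HWb)
    (Pool.Agent.Helper72.IX.i_HWdeg Pool.Agent.Helper13.GX.g_HWdeg)
    Pool.Agent.Helper41.IX.i_HWrank

theorem iFewA : I_FewA :=
  Pool.Agent.Helper82.IX.i_FewA Pool.Agent.Helper12.CX.c_strong Pool.Agent.Helper90.CX.c_tr
    Pool.Agent.Helper90.IX.i_Irr iFewG Pool.Agent.Helper59.IX.i_Half Pool.Agent.Helper90.HX.h_irr
    Pool.Agent.Helper12.BW.w_strong Pool.Agent.Helper90.BW.w_tr hFewG

theorem iFewR0 : I_FewR0 :=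
  i_FewR0 gData (Pool.Agent.Helper38.GX.g_Half vData) gFewA iData hData iFewA x_Spread

end Pool.Agent.Helper62.IX
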